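import Mathlib

open MeasureTheory Set Metric Filter Topology Complex

namespace Pool.Agent.H.MP_2e716c_an

/-- The linear reflection of the plane which fixes the direction `d`. -/
noncomputable def refl (d w : ℂ) : ℂ := d / (starRingEnd ℂ) d * (starRingEnd ℂ) w

/-- An infinite billiard trajectory in the region `Y` all of whose reflections take place at the
neutral sides `[a i, b i]`: `q 0` is the starting point, `q (n+1)` the `n`-th reflection point, which
lies in the open side number `c n`, `v n` is the velocity between `q n` and `q (n+1)`. -/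
def NeutralPath {ι : Type*} (Y : Set ℂ) (a b : ι → ℂ) (q v : ℕ → ℂ) (c : ℕ → ι) : Prop :=
  ∀ n, (∃ τ : ℝ, 0 < τ ∧ q (n + 1) = q n + τ * v n) ∧
    q (n + 1) ∈ openSegment ℝ (a (c n)) (b (c n)) ∧
    openSegment ℝ (q n) (q (n + 1)) ⊆ interior Y ∧
    v (n + 1) = refl (b (c n) - a (c n)) (v n)

/-- The trajectory starting at `y` with velocity `u` reflects forever, and only at the neutral
sides. -/
def Trapped {ι : Type*} (Y : Set ℂ) (a b : ι → ℂ) (y u : ℂ) : Prop :=
  ∃ (q v : ℕ → ℂ) (c : ℕ → ι), q 0 = y ∧ v 0 = u ∧ NeutralPath Y a b q v c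

theorem refl_add (d x y : ℂ) : refl d (x + y) = refl d x + refl d y := by
  simp [refl, mul_add]

theorem refl_real_mul (d : ℂ) (t : ℝ) (x : ℂ) : refl d (t * x) = t * refl d x := by
  simp only [refl, map_mul, Complex.conj_ofReal]; ring

theorem refl_self (d : ℂ) (hd : d ≠ 0) : refl d d = d := by
  have : (starRingEnd ℂ) d ≠ 0 := by simpa using hd
  simp [refl, this]

theorem refl_refl (d : ℂ) (hd : d ≠ 0) (x : ℂ) : refl d (refl d x) = x := by
  have : (starRingEnd ℂ) d ≠ 0 := by simpa using hd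
  simp only [refl, map_mul, map_div₀, Complex.conj_conj]
  field_simp

theorem norm_refl (d : ℂ) (hd : d ≠ 0) (x : ℂ) : ‖refl d x‖ = ‖x‖ := by
  have : ‖d‖ ≠ 0 := by simpa using hd
  simp [refl, this]

/-- Linear part of the unfolding map. -/
noncomputable def Lin {ι : Type*} (a b : ι → ℂ) (c : ℕ → ι) : ℕ → ℂ → ℂ
  | 0, w => w
  | n + 1, w => Lin a b c n (refl (b (c n) - a (c n)) w)

/-- Unfolding map: the composition of the reflections in the sides `c 0, ..., c (n-1)`. -/
noncomputable def Unf {ι : Type*} (a b : ι → ℂ) (c : ℕ → ι) : ℕ → ℂ → ℂ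
  | 0, z => z
  | n + 1, z => Unf a b c n (a (c n) + refl (b (c n) - a (c n)) (z - a (c n)))

variable {ι : Type*} {Y : Set ℂ} {a b : ι → ℂ} {c c' : ℕ → ι} {q v : ℕ → ℂ}

theorem Lin_add (n : ℕ) : ∀ x y : ℂ, Lin a b c n (x + y) = Lin a b c n x + Lin a b c n y := by
  induction n with
  | zero => intro x y; rfl
  | succ n ih => intro x y; simp only [Lin, refl_add, ih]

theorem Lin_real_mul (n : ℕ) : ∀ (t : ℝ) (x : ℂ), Lin a b c n (t * x) = t * Lin a b c n x := by
  induction n with
  | zero => intro t x; rfl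
  | succ n ih => intro t x; simp only [Lin, refl_real_mul, ih]

theorem Lin_sub (n : ℕ) (x y : ℂ) : Lin a b c n (x - y) = Lin a b c n x - Lin a b c n y := by
  have h := Lin_real_mul (a := a) (b := b) (c := c) n (-1) y
  have h2 := Lin_add (a := a) (b := b) (c := c) n x (((-1 : ℝ) : ℂ) * y)
  rw [h] at h2
  simpa [sub_eq_add_neg] using h2

theorem norm_Lin (hab : ∀ i, a i ≠ b i) (n : ℕ) : ∀ x : ℂ, ‖Lin a b c n x‖ = ‖x‖ := by
  induction n with
  | zero => intro x; rfl
  | succ n ih =>
    intro x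
    simp only [Lin, ih]
    exact norm_refl _ (sub_ne_zero.2 (hab _).symm) _

theorem Unf_add (n : ℕ) : ∀ z w : ℂ, Unf a b c n (z + w) = Unf a b c n z + Lin a b c n w := by
  induction n with
  | zero => intro z w; rfl
  | succ n ih =>
    intro z w
    have : a (c n) + refl (b (c n) - a (c n)) (z + w - a (c n)) =
        (a (c n) + refl (b (c n) - a (c n)) (z - a (c n))) + refl (b (c n) - a (c n)) w := by
      rw [show z + w - a (c n) = (z - a (c n)) + w by ring, refl_add]; ring
    simp only [Unf, Lin, this, ih]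

theorem Unf_sub_Unf (n : ℕ) (z w : ℂ) : Unf a b c n z - Unf a b c n w = Lin a b c n (z - w) := by
  have := Unf_add (a := a) (b := b) (c := c) n w (z - w)
  rw [show w + (z - w) = z by ring] at this
  rw [this]; ring

theorem dist_Unf (hab : ∀ i, a i ≠ b i) (n : ℕ) (z w : ℂ) :
    ‖Unf a b c n z - Unf a b c n w‖ = ‖z - w‖ := by
  rw [Unf_sub_Unf, norm_Lin hab]

theorem Lin_congr (n : ℕ) (h : ∀ k < n, c k = c' k) : ∀ x, Lin a b c n x = Lin a b c' n x := by
  induction n with
  | zero => intro x; rfl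
  | succ n ih =>
    intro x
    simp only [Lin]
    rw [ih (fun k hk => h k (hk.trans n.lt_succ_self)), h n n.lt_succ_self]

theorem Unf_congr (n : ℕ) (h : ∀ k < n, c k = c' k) : ∀ x, Unf a b c n x = Unf a b c' n x := by
  induction n with
  | zero => intro x; rfl
  | succ n ih =>
    intro x
    simp only [Unf]
    rw [ih (fun k hk => h k (hk.trans n.lt_succ_self)), h n n.lt_succ_self]

/-- A point of the segment is `a + s (b - a)` with `s` in `[0,1]`. -/
theorem mem_seg {a b z : ℂ} : z ∈ segment ℝ a b ↔ ∃ s : ℝ, 0 ≤ s ∧ s ≤ 1 ∧ z = a + s * (b - a) := by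
  rw [segment_eq_image_lineMap]
  constructor
  · rintro ⟨s, hs, rfl⟩
    refine ⟨s, hs.1, hs.2, ?_⟩
    simp [AffineMap.lineMap_apply]
    ring
  · rintro ⟨s, h0, h1, rfl⟩
    refine ⟨s, ⟨h0, h1⟩, ?_⟩
    simp [AffineMap.lineMap_apply]
    ring

theorem unf_side (hab : ∀ i, a i ≠ b i) (n : ℕ) (z : ℂ) (hz : z ∈ segment ℝ (a (c n)) (b (c n))) :
    Unf a b c (n + 1) z = Unf a b c n z := by
  obtain ⟨s, -, -, rfl⟩ := mem_seg.1 hz
  simp only [Unf]
  congr 1
  rw [show a (c n) + s * (b (c n) - a (c n)) - a (c n) = s * (b (c n) - a (c n)) by ring,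
    refl_real_mul, refl_self _ (sub_ne_zero.2 (hab _).symm)]

/-- The unfolded path is a straight line. -/
theorem unfold (hab : ∀ i, a i ≠ b i) (hN : NeutralPath Y a b q v c) (hv0 : ‖v 0‖ = 1) :
    ∃ T : ℕ → ℝ, T 0 = 0 ∧ (∀ n, T (n + 1) - T n = ‖q (n + 1) - q n‖) ∧ (∀ n, T n < T (n + 1)) ∧
      (∀ n, Unf a b c n (q n) = q 0 + T n * v 0) ∧ (∀ n, Lin a b c n (v n) = v 0) ∧
      (∀ n, ‖v n‖ = 1) ∧ (∀ n, q (n + 1) - q n = ‖q (n + 1) - q n‖ * v n) := by
  have hv : ∀ n, ‖v n‖ = 1 := by
    intro n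
    induction n with
    | zero => exact hv0
    | succ n ih => rw [(hN n).2.2.2, norm_refl _ (sub_ne_zero.2 (hab _).symm), ih]
  choose τ hτ using fun n => (hN n).1
  have hτn : ∀ n, ‖q (n + 1) - q n‖ = τ n := by
    intro n
    rw [(hτ n).2, add_sub_cancel_left, norm_mul, hv n, mul_one, Complex.norm_real,
      Real.norm_of_nonneg (hτ n).1.le]
  have hL : ∀ n, Lin a b c n (v n) = v 0 := by
    intro n
    induction n with
    | zero => rfl
    | succ n ih =>
      simp only [Lin]
      rw [(hN n).2.2.2, refl_refl _ (sub_ne_zero.2 (hab _).symm), ih]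
  refine ⟨fun n => ∑ k ∈ Finset.range n, τ k, by simp, ?_, ?_, ?_, hL, hv, ?_⟩
  · intro n; simp only [Finset.sum_range_succ, hτn]; ring
  · intro n; simp only [Finset.sum_range_succ]; linarith [(hτ n).1]
  · intro n
    induction n with
    | zero => simp [Unf]
    | succ n ih =>
      rw [unf_side hab n _ (openSegment_subset_segment ℝ _ _ (hN n).2.1), (hτ n).2, Unf_add, ih,
        Lin_real_mul, hL]
      simp only [Finset.sum_range_succ]
      push_cast
      ring
  · intro n
    rw [hτn, (hτ n).2]; ring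

end Pool.Agent.H.MP_2e716c_an
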