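import Mathlib

open MeasureTheory Set Metric Filter Topology

namespace Pool.Agent.H.MP_2e716c_an

/-- A letter function which separates points by at least `g` produces a hole of length `g`. -/
theorem hole_of_letters {ι : Type*} (S : Set ℝ) (φ : ℝ → ι) (x z : ℝ) (hx : x ∈ S) (hz : z ∈ S)
    (hxz : x ≤ z) (hne : φ z ≠ φ x) (g : ℝ)
    (hsep : ∀ s ∈ S ∩ Icc x z, ∀ t ∈ S ∩ Icc x z, φ s ≠ φ t → g ≤ |t - s|) :
    ∃ α β : ℝ, x ≤ α ∧ β ≤ z ∧ g ≤ β - α ∧ ∀ t ∈ Ioo α β, t ∉ S := by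
  classical
  set A : Set ℝ := {t | t ∈ S ∩ Icc x z ∧ φ t = φ x} with hA
  have hAne : A.Nonempty := ⟨x, ⟨hx, le_refl x, hxz⟩, rfl⟩
  have hAbdd : BddAbove A := ⟨z, fun t ht => ht.1.2.2⟩
  set α := sSup A with hα
  have hxα : x ≤ α := le_csSup hAbdd ⟨⟨hx, le_refl x, hxz⟩, rfl⟩
  have hαz : α ≤ z := csSup_le hAne fun t ht => ht.1.2.2
  set B : Set ℝ := {t | t ∈ S ∩ Icc α z ∧ φ t ≠ φ x} with hB
  have hBne : B.Nonempty := ⟨z, ⟨hz, hαz, le_refl z⟩, hne⟩
  have hBbdd : BddBelow B := ⟨α, fun t ht => ht.1.2.1⟩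
  set β := sInf B with hβ
  have hβz : β ≤ z := csInf_le hBbdd ⟨⟨hz, hαz, le_refl z⟩, hne⟩
  refine ⟨α, β, hxα, hβz, ?_, ?_⟩
  · have h1 : ∀ s ∈ A, s + g ≤ β := by
      intro s hs
      refine le_csInf hBne ?_
      intro t ht
      have hst : s ≤ t := (le_csSup hAbdd hs).trans ht.1.2.1
      have h2 := hsep s hs.1 t ⟨ht.1.1, hxα.trans ht.1.2.1, ht.1.2.2⟩ (by
        rw [hs.2]; exact fun h => ht.2 h.symm)
      rw [abs_of_nonneg (by linarith)] at h2
      linarith
    have h3 : α ≤ β - g := csSup_le hAne fun s hs => by linarith [h1 s hs]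
    linarith
  · intro t ht hS
    have htz : t ≤ z := ht.2.le.trans hβz
    have hxt : x ≤ t := hxα.trans ht.1.le
    by_cases h : φ t = φ x
    · have : t ≤ α := le_csSup hAbdd ⟨⟨hS, hxt, htz⟩, h⟩
      linarith [ht.1]
    · have : β ≤ t := csInf_le hBbdd ⟨⟨hS, ht.1.le, htz⟩, h⟩
      linarith [ht.2]

/-- A set of reals which has, between any two of its points that are close enough, a hole of
length proportional to their distance, is Lebesgue null. -/
theorem volume_eq_zero_of_holes (S : Set ℝ) (c δ : ℝ) (hc : 0 < c) (hδ : 0 < δ)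
    (h : ∀ x ∈ S, ∀ z ∈ S, x < z → z - x < δ →
      ∃ α β : ℝ, x ≤ α ∧ β ≤ z ∧ c * (z - x) ≤ β - α ∧ ∀ t ∈ Ioo α β, t ∉ S) :
    volume S = 0 := by
  by_contra hne
  have hae := Besicovitch.ae_tendsto_measure_inter_div (volume : Measure ℝ) S
  have hbot : (ae (volume.restrict S)).NeBot := by
    rw [ae_neBot]
    intro h0
    apply hne
    have := congrArg (fun μ => μ univ) h0
    simpa using this
  obtain ⟨x, hx⟩ := hae.exists
  set κ : ℝ := max (3/4) (1 - c / 4) with hκ
  have hκ1 : κ < 1 := max_lt (by norm_num) (by linarith)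
  have hκ0 : 0 < κ := lt_max_of_lt_left (by norm_num)
  have hev : ∀ᶠ r in 𝓝[>] (0:ℝ), ENNReal.ofReal κ < volume (S ∩ closedBall x r) / volume (closedBall x r) := by
    refine hx.eventually (lt_mem_nhds ?_)
    rw [← ENNReal.ofReal_one]
    exact (ENNReal.ofReal_lt_ofReal_iff (by norm_num)).2 hκ1
  have hev2 : ∀ᶠ r in 𝓝[>] (0:ℝ), r < δ / 4 := by
    refine Filter.Eventually.filter_mono nhdsWithin_le_nhds (gt_mem_nhds (by positivity))
  obtain ⟨r, ⟨hr1, hr2⟩, hr0⟩ := ((hev.and hev2).and self_mem_nhdsWithin).exists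
  have hr0 : 0 < r := hr0
  -- measure lower bound
  have hlow : ENNReal.ofReal (κ * (2 * r)) < volume (S ∩ closedBall x r) := by
    rw [Real.volume_closedBall] at hr1
    rw [ENNReal.lt_div_iff_mul_lt (Or.inl (by simp [hr0])) (Or.inl ENNReal.ofReal_ne_top)] at hr1
    rwa [ENNReal.ofReal_mul hκ0.le]
  have hup : ∀ (u v : ℝ), S ∩ closedBall x r ⊆ Icc u v → κ * (2 * r) < v - u := by
    intro u v huv
    by_contra hcon
    push Not at hcon
    have : volume (S ∩ closedBall x r) ≤ ENNReal.ofReal (κ * (2 * r)) := by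
      refine (measure_mono huv).trans ?_
      rw [Real.volume_Icc]
      exact ENNReal.ofReal_le_ofReal hcon
    exact absurd hlow (not_lt.2 this)
  have hκr : 3 / 4 * (2 * r) ≤ κ * (2 * r) := by
    apply mul_le_mul_of_nonneg_right (le_max_left _ _) (by positivity)
  have hκr' : (1 - c / 4) * (2 * r) ≤ κ * (2 * r) := by
    apply mul_le_mul_of_nonneg_right (le_max_right _ _) (by positivity)
  -- a point on the left
  have hleft : ∃ s ∈ S, x - r ≤ s ∧ s ≤ x - r / 2 := by
    by_contra hcon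
    push Not at hcon
    have := hup (x - r / 2) (x + r) (by
      intro s hs
      have hs2 := hs.2
      rw [Real.closedBall_eq_Icc] at hs2
      exact ⟨(hcon s hs.1 hs2.1).le, hs2.2⟩)
    linarith
  have hright : ∃ s ∈ S, x + r / 2 ≤ s ∧ s ≤ x + r := by
    by_contra hcon
    push Not at hcon
    have := hup (x - r) (x + r / 2) (by
      intro s hs
      have hs2 := hs.2
      rw [Real.closedBall_eq_Icc] at hs2
      refine ⟨hs2.1, ?_⟩
      by_contra h'
      push Not at h'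
      exact absurd hs2.2 (not_le.2 (hcon s hs.1 h'.le)))
    linarith
  obtain ⟨s, hsS, hs1, hs2⟩ := hleft
  obtain ⟨t, htS, ht1, ht2⟩ := hright
  obtain ⟨α, β, hα, hβ, hlen, hhole⟩ := h s hsS t htS (by linarith) (by linarith)
  have hlen' : c * r ≤ β - α := by
    refine le_trans ?_ hlen
    apply mul_le_mul_of_nonneg_left _ hc.le
    linarith
  -- the hole has too large measure
  have hsub : S ∩ closedBall x r ⊆ Icc (x - r) α ∪ Icc β (x + r) := by
    intro w hw
    have hw2 := hw.2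
    rw [Real.closedBall_eq_Icc] at hw2
    by_cases h1 : w ≤ α
    · exact Or.inl ⟨hw2.1, h1⟩
    · by_cases h2 : β ≤ w
      · exact Or.inr ⟨h2, hw2.2⟩
      · exact absurd hw.1 (hhole w ⟨not_le.1 h1, not_le.1 h2⟩)
  have hm : volume (S ∩ closedBall x r) ≤ ENNReal.ofReal (κ * (2 * r)) := by
    refine (measure_mono hsub).trans ((measure_union_le _ _).trans ?_)
    rw [Real.volume_Icc, Real.volume_Icc, ← ENNReal.ofReal_add (by linarith) (by linarith)]
    apply ENNReal.ofReal_le_ofReal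
    nlinarith
  exact absurd hlow (not_lt.2 hm)

end Pool.Agent.H.MP_2e716c_an
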