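import Mathlib
import Pool.Agent.H.MP_2e716c_an.h4.Geo

open MeasureTheory Set Metric Filter Topology Complex

namespace Pool.Agent.H.MP_2e716c_an

/-- No flight inside `Y` between two different neutral sides meets a third one. -/
def Unobstructed {ι : Type*} (Y : Set ℂ) (a b : ι → ℂ) : Prop :=
  ∀ i j k, i ≠ j → i ≠ k → j ≠ k → ∀ p ∈ segment ℝ (a i) (b i), ∀ q ∈ segment ℝ (a j) (b j),
    segment ℝ p q ⊆ Y → Disjoint (segment ℝ p q) (segment ℝ (a k) (b k))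

variable {ι : Type*} {Y : Set ℂ} {a b : ι → ℂ} {c c' : ℕ → ι} {q v : ℕ → ℂ}

theorem isCompact_seg (a b : ℂ) : IsCompact (segment ℝ a b) := by
  rw [segment_eq_image_lineMap]
  exact isCompact_Icc.image AffineMap.lineMap_continuous

theorem isClosed_segment_subset {X : Type*} [TopologicalSpace X] (hY : IsClosed Y) (f g : X → ℂ)
    (hf : Continuous f) (hg : Continuous g) : IsClosed {x | segment ℝ (f x) (g x) ⊆ Y} := by
  have : {x | segment ℝ (f x) (g x) ⊆ Y} =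
      ⋂ t ∈ Icc (0:ℝ) 1, {x | f x + t * (g x - f x) ∈ Y} := by
    ext x
    simp only [mem_iInter]
    show segment ℝ (f x) (g x) ⊆ Y ↔ ∀ t ∈ Icc (0:ℝ) 1, f x + t * (g x - f x) ∈ Y
    constructor
    · intro h t ht
      exact h (mem_seg.2 ⟨t, ht.1, ht.2, rfl⟩)
    · intro h z hz
      obtain ⟨t, h0, h1, rfl⟩ := mem_seg.1 hz
      exact h t ⟨h0, h1⟩
  rw [this]
  refine isClosed_biInter fun t _ => hY.preimage ?_
  fun_prop

theorem sep_triple (hY : IsClosed Y)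
    (hdisj : ∀ i j, i ≠ j → Disjoint (segment ℝ (a i) (b i)) (segment ℝ (a j) (b j)))
    (hvis : Unobstructed Y a b) (i j k : ι) (hij : i ≠ j) (hik : i ≠ k) (hjk : j ≠ k) :
    ∃ ε > 0, ∀ p ∈ segment ℝ (a i) (b i), ∀ q ∈ segment ℝ (a j) (b j),
      ∀ p' ∈ segment ℝ (a i) (b i), ∀ q' ∈ segment ℝ (a k) (b k),
      segment ℝ p q ⊆ Y → segment ℝ p' q' ⊆ Y →
      ε ≤ ‖p - p'‖ + ‖(q - p) / (‖q - p‖ : ℂ) - (q' - p') / (‖q' - p'‖ : ℂ)‖ := by
  classical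
  set K : Set (ℂ × ℂ × ℂ × ℂ) := {x | (x.1 ∈ segment ℝ (a i) (b i) ∧ x.2.1 ∈ segment ℝ (a j) (b j) ∧
    x.2.2.1 ∈ segment ℝ (a i) (b i) ∧ x.2.2.2 ∈ segment ℝ (a k) (b k)) ∧
    segment ℝ x.1 x.2.1 ⊆ Y ∧ segment ℝ x.2.2.1 x.2.2.2 ⊆ Y} with hK
  have hKc : IsCompact K := by
    have h1 : IsCompact ((segment ℝ (a i) (b i)) ×ˢ (segment ℝ (a j) (b j)) ×ˢ
        (segment ℝ (a i) (b i)) ×ˢ (segment ℝ (a k) (b k))) :=
      (isCompact_seg _ _).prod ((isCompact_seg _ _).prod ((isCompact_seg _ _).prod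
        (isCompact_seg _ _)))
    have h2 : IsClosed {x : ℂ × ℂ × ℂ × ℂ | segment ℝ x.1 x.2.1 ⊆ Y ∧
        segment ℝ x.2.2.1 x.2.2.2 ⊆ Y} :=
      (isClosed_segment_subset hY _ _ (by fun_prop) (by fun_prop)).inter
        (isClosed_segment_subset hY _ _ (by fun_prop) (by fun_prop))
    have : K = ((segment ℝ (a i) (b i)) ×ˢ (segment ℝ (a j) (b j)) ×ˢ
        (segment ℝ (a i) (b i)) ×ˢ (segment ℝ (a k) (b k))) ∩ {x : ℂ × ℂ × ℂ × ℂ |
          segment ℝ x.1 x.2.1 ⊆ Y ∧ segment ℝ x.2.2.1 x.2.2.2 ⊆ Y} := by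
      ext x; simp [hK, mem_prod]
    rw [this]
    exact h1.inter_right h2
  set f : ℂ × ℂ × ℂ × ℂ → ℝ := fun x => ‖x.1 - x.2.2.1‖ +
    ‖(x.2.1 - x.1) / (‖x.2.1 - x.1‖ : ℂ) - (x.2.2.2 - x.2.2.1) / (‖x.2.2.2 - x.2.2.1‖ : ℂ)‖ with hf
  have hne1 : ∀ x ∈ K, x.2.1 - x.1 ≠ 0 := by
    intro x hx h0
    exact (disjoint_left.1 (hdisj i j hij)) hx.1.1 (by rw [← sub_eq_zero.1 h0]; exact hx.1.2.1)
  have hne2 : ∀ x ∈ K, x.2.2.2 - x.2.2.1 ≠ 0 := by
    intro x hx h0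
    exact (disjoint_left.1 (hdisj i k hik)) hx.1.2.2.1
      (by rw [← sub_eq_zero.1 h0]; exact hx.1.2.2.2)
  have hfc : ContinuousOn f K := by
    refine ContinuousOn.add (by fun_prop) (ContinuousOn.norm (ContinuousOn.sub ?_ ?_))
    · refine ContinuousOn.div (by fun_prop) (by fun_prop) ?_
      intro x hx
      have := hne1 x hx
      simpa using this
    · refine ContinuousOn.div (by fun_prop) (by fun_prop) ?_
      intro x hx
      have := hne2 x hx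
      simpa using this
  by_cases hKe : K.Nonempty
  · obtain ⟨x, hxK, hmin⟩ := hKc.exists_isMinOn hKe hfc
    have hpos : 0 < f x := by
      have h0 : 0 ≤ f x := by positivity
      rcases h0.lt_or_eq with h | h
      · exact h
      exfalso
      have hn1 : 0 ≤ ‖x.1 - x.2.2.1‖ := norm_nonneg _
      have hn2 : 0 ≤ ‖(x.2.1 - x.1) / (‖x.2.1 - x.1‖ : ℂ) -
        (x.2.2.2 - x.2.2.1) / (‖x.2.2.2 - x.2.2.1‖ : ℂ)‖ := norm_nonneg _
      have hsum : f x = ‖x.1 - x.2.2.1‖ + ‖(x.2.1 - x.1) / (‖x.2.1 - x.1‖ : ℂ) -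
        (x.2.2.2 - x.2.2.1) / (‖x.2.2.2 - x.2.2.1‖ : ℂ)‖ := rfl
      have e1 : x.1 = x.2.2.1 := by
        have : ‖x.1 - x.2.2.1‖ = 0 := by linarith
        exact sub_eq_zero.1 (norm_eq_zero.1 this)
      have e2 : (x.2.1 - x.1) / (‖x.2.1 - x.1‖ : ℂ) =
        (x.2.2.2 - x.2.2.1) / (‖x.2.2.2 - x.2.2.1‖ : ℂ) := by
        have : ‖(x.2.1 - x.1) / (‖x.2.1 - x.1‖ : ℂ) -
          (x.2.2.2 - x.2.2.1) / (‖x.2.2.2 - x.2.2.1‖ : ℂ)‖ = 0 := by linarith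
        exact sub_eq_zero.1 (norm_eq_zero.1 this)
      have r1 : 0 < ‖x.2.1 - x.1‖ := norm_pos_iff.2 (hne1 x hxK)
      have r2 : 0 < ‖x.2.2.2 - x.2.2.1‖ := norm_pos_iff.2 (hne2 x hxK)
      obtain ⟨hmem, hs1, hs2⟩ := hxK
      obtain ⟨p, q, p', q'⟩ := x
      simp only at *
      subst e1
      set r := ‖q - p‖ with hr
      set r' := ‖q' - p‖ with hr'
      have hrc : (r : ℂ) ≠ 0 := by exact_mod_cast r1.ne'
      have hrc' : (r' : ℂ) ≠ 0 := by exact_mod_cast r2.ne'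
      rcases le_total r r' with hle | hle
      · -- q lies between p and q'
        have hq : q = p + ((r / r' : ℝ) : ℂ) * (q' - p) := by
          have : q - p = (r : ℂ) * ((q' - p) / (r' : ℂ)) := by rw [← e2]; field_simp
          push_cast
          linear_combination this
        have hmemq : q ∈ segment ℝ p q' :=
          mem_seg.2 ⟨r / r', by positivity, (div_le_one r2).2 hle, hq⟩
        exact disjoint_left.1 (hvis i k j hik hij hjk.symm p hmem.1 q' hmem.2.2.2 hs2) hmemq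
          hmem.2.1
      · have hq : q' = p + ((r' / r : ℝ) : ℂ) * (q - p) := by
          have : q' - p = (r' : ℂ) * ((q - p) / (r : ℂ)) := by rw [e2]; field_simp
          push_cast
          linear_combination this
        have hmemq : q' ∈ segment ℝ p q :=
          mem_seg.2 ⟨r' / r, by positivity, (div_le_one r1).2 hle, hq⟩
        exact disjoint_left.1 (hvis i j k hij hik hjk p hmem.1 q hmem.2.1 hs1) hmemq
          hmem.2.2.2
    refine ⟨f x, hpos, ?_⟩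
    intro p hp q hq p' hp' q' hq' h1 h2
    exact hmin (show (p, q, p', q') ∈ K from ⟨⟨hp, hq, hp', hq'⟩, h1, h2⟩)
  · refine ⟨1, one_pos, ?_⟩
    intro p hp q hq p' hp' q' hq' h1 h2
    exact absurd ⟨(p, q, p', q'), ⟨hp, hq, hp', hq'⟩, h1, h2⟩ hKe

/-- A positive constant that works for all members of a finite family. -/
theorem unif {κ : Type*} [Finite κ] (P : κ → ℝ → Prop) (hP : ∀ k, ∃ ε > 0, P k ε)
    (hmono : ∀ k ε ε', P k ε → ε' ≤ ε → P k ε') : ∃ ε > 0, ∀ k, P k ε := by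
  have h : ∀ᶠ ε in 𝓝[>] (0:ℝ), ∀ k, P k ε := by
    rw [eventually_all]
    intro k
    obtain ⟨ε, hε, h⟩ := hP k
    filter_upwards [Ioo_mem_nhdsGT hε] with t ht
    exact hmono k ε t h ht.2.le
  obtain ⟨ε, h1, h2⟩ := (h.and self_mem_nhdsWithin).exists
  exact ⟨ε, h2, h1⟩

theorem sep [Finite ι] (hY : IsClosed Y)
    (hdisj : ∀ i j, i ≠ j → Disjoint (segment ℝ (a i) (b i)) (segment ℝ (a j) (b j)))
    (hvis : Unobstructed Y a b) : ∃ ε > 0, ∀ i j k : ι, i ≠ j → i ≠ k → j ≠ k →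
    ∀ p ∈ segment ℝ (a i) (b i), ∀ q ∈ segment ℝ (a j) (b j),
      ∀ p' ∈ segment ℝ (a i) (b i), ∀ q' ∈ segment ℝ (a k) (b k),
      segment ℝ p q ⊆ Y → segment ℝ p' q' ⊆ Y →
      ε ≤ ‖p - p'‖ + ‖(q - p) / (‖q - p‖ : ℂ) - (q' - p') / (‖q' - p'‖ : ℂ)‖ := by
  obtain ⟨ε, hε, h⟩ := unif (κ := ι × ι × ι) (fun x ε => x.1 ≠ x.2.1 → x.1 ≠ x.2.2 → x.2.1 ≠ x.2.2 →
    ∀ p ∈ segment ℝ (a x.1) (b x.1), ∀ q ∈ segment ℝ (a x.2.1) (b x.2.1),
      ∀ p' ∈ segment ℝ (a x.1) (b x.1), ∀ q' ∈ segment ℝ (a x.2.2) (b x.2.2),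
      segment ℝ p q ⊆ Y → segment ℝ p' q' ⊆ Y →
      ε ≤ ‖p - p'‖ + ‖(q - p) / (‖q - p‖ : ℂ) - (q' - p') / (‖q' - p'‖ : ℂ)‖) (by
      rintro ⟨i, j, k⟩
      by_cases hij : i = j
      · exact ⟨1, one_pos, fun h => absurd hij h⟩
      by_cases hik : i = k
      · exact ⟨1, one_pos, fun _ h => absurd hik h⟩
      by_cases hjk : j = k
      · exact ⟨1, one_pos, fun _ _ h => absurd hjk h⟩
      obtain ⟨ε, hε, h⟩ := sep_triple hY hdisj hvis i j k hij hik hjk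
      exact ⟨ε, hε, fun _ _ _ => h⟩) (by
      intro x ε ε' h hle h1 h2 h3 p hp q hq p' hp' q' hq' s1 s2
      exact hle.trans (h h1 h2 h3 p hp q hq p' hp' q' hq' s1 s2))
  exact ⟨ε, hε, fun i j k => h (i, j, k)⟩

/-- Two different neutral sides are at positive distance. -/
theorem far [Finite ι]
    (hdisj : ∀ i j, i ≠ j → Disjoint (segment ℝ (a i) (b i)) (segment ℝ (a j) (b j))) :
    ∃ ε > 0, ∀ i j : ι, i ≠ j → ∀ p ∈ segment ℝ (a i) (b i), ∀ q ∈ segment ℝ (a j) (b j),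
      ε ≤ ‖q - p‖ := by
  obtain ⟨ε, hε, h⟩ := unif (κ := ι × ι) (fun x ε => x.1 ≠ x.2 →
    ∀ p ∈ segment ℝ (a x.1) (b x.1), ∀ q ∈ segment ℝ (a x.2) (b x.2), ε ≤ ‖q - p‖) (by
      rintro ⟨i, j⟩
      by_cases hij : i = j
      · exact ⟨1, one_pos, fun h => absurd hij h⟩
      have hc : IsCompact ((segment ℝ (a i) (b i)) ×ˢ (segment ℝ (a j) (b j))) :=
        (isCompact_seg _ _).prod (isCompact_seg _ _)
      obtain ⟨x, hx, hmin⟩ := hc.exists_isMinOn (f := fun x : ℂ × ℂ => ‖x.2 - x.1‖)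
        ⟨(a i, a j), left_mem_segment ℝ _ _, left_mem_segment ℝ _ _⟩ (by fun_prop)
      refine ⟨‖x.2 - x.1‖, ?_, fun _ p hp q hq => hmin (show (p, q) ∈ _ from ⟨hp, hq⟩)⟩
      rw [gt_iff_lt, norm_pos_iff]
      intro h0
      exact disjoint_left.1 (hdisj i j hij) hx.1 (by rw [← sub_eq_zero.1 h0]; exact hx.2)) (by
      intro x ε ε' h hle h1 p hp q hq
      exact hle.trans (h h1 p hp q hq))
  exact ⟨ε, hε, fun i j => h (i, j)⟩

end Pool.Agent.H.MP_2e716c_an
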