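import Mathlib
import Pool.Agent.H.MP_2e716c_an.h4.Geo
import Pool.Agent.H.MP_2e716c_an.h4.Sep
import Pool.Agent.H.MP_2e716c_an.h4.Porous

open MeasureTheory Set Metric Filter Topology Complex

namespace Pool.Agent.H.MP_2e716c_an

variable {ι : Type*} {Y : Set ℂ} {a b : ι → ℂ} {c c' : ℕ → ι} {q v : ℕ → ℂ}

/-- The cross product. -/
noncomputable def cr (z w : ℂ) : ℝ := ((starRingEnd ℂ) z * w).im

theorem cr_exp (T T' θ θ' : ℝ) :
    cr (T * exp (θ * I)) (T' * exp (θ' * I)) = T * T' * Real.sin (θ' - θ) := by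
  have h : (starRingEnd ℂ) ((T : ℂ) * exp (θ * I)) * ((T' : ℂ) * exp (θ' * I)) =
      ((T * T' : ℝ) : ℂ) * exp (((θ' - θ : ℝ) : ℂ) * I) := by
    rw [map_mul, Complex.conj_ofReal, ← Complex.exp_conj, map_mul, Complex.conj_ofReal,
      Complex.conj_I]
    rw [show ((θ' - θ : ℝ) : ℂ) * I = θ' * I + θ * -I by push_cast; ring, Complex.exp_add]
    push_cast
    ring
  rw [cr, h, Complex.im_ofReal_mul, Complex.exp_ofReal_mul_I_im]

theorem cr_line (P w : ℂ) (s t : ℝ) : cr (P + s * w) (P + t * w) = (t - s) * cr P w := by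
  simp only [cr, map_add, map_mul, Complex.conj_ofReal, Complex.add_im, Complex.mul_im,
    Complex.mul_re, Complex.conj_re, Complex.conj_im, Complex.ofReal_re, Complex.ofReal_im,
    Complex.add_re]
  ring

theorem abs_cr_le (z w : ℂ) : |cr z w| ≤ ‖z‖ * ‖w - z‖ := by
  have h : cr z w = ((starRingEnd ℂ) z * (w - z)).im := by
    simp only [cr, Complex.mul_im, Complex.conj_re, Complex.conj_im, Complex.sub_re,
      Complex.sub_im]
    ring
  rw [h]
  refine (Complex.abs_im_le_norm _).trans ?_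
  rw [norm_mul, Complex.norm_conj]

theorem norm_exp_sub_exp (s t : ℝ) : ‖exp (s * I) - exp (t * I)‖ ≤ |s - t| := by
  have h := Real.norm_exp_I_mul_ofReal_sub_one_le (x := s - t)
  have e : exp (s * I) - exp (t * I) = exp (t * I) * (exp (I * ((s - t : ℝ) : ℂ)) - 1) := by
    rw [mul_sub, ← Complex.exp_add, mul_one]
    congr 2
    push_cast; ring
  rw [e, norm_mul, Complex.norm_exp_ofReal_mul_I, one_mul]
  simpa using h

theorem not_mem_side (hfr : ∀ i, segment ℝ (a i) (b i) ⊆ frontier Y)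
    (hN : NeutralPath Y a b q v c) (n : ℕ) : q n ∉ segment ℝ (a (c n)) (b (c n)) := by
  intro h
  have h2 : q (n + 1) ∈ segment ℝ (a (c n)) (b (c n)) :=
    openSegment_subset_segment ℝ _ _ (hN n).2.1
  have h3 : midpoint ℝ (q n) (q (n + 1)) ∈ openSegment ℝ (q n) (q (n + 1)) :=
    midpoint_mem_openSegment _ _
  have h4 := hfr _ ((convex_segment _ _).openSegment_subset h h2 h3)
  have h5 := (hN n).2.2.1 h3
  exact (disjoint_left.1 disjoint_interior_frontier) h5 h4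

theorem letter_ne (hfr : ∀ i, segment ℝ (a i) (b i) ⊆ frontier Y)
    (hN : NeutralPath Y a b q v c) (n : ℕ) : c n ≠ c (n + 1) := by
  intro h
  apply not_mem_side hfr hN (n + 1)
  rw [← h]
  exact openSegment_subset_segment ℝ _ _ (hN n).2.1

theorem flight_subset (hY : IsClosed Y) (hfr : ∀ i, segment ℝ (a i) (b i) ⊆ frontier Y)
    (hN : NeutralPath Y a b q v c) (n : ℕ) : segment ℝ (q (n + 1)) (q (n + 1 + 1)) ⊆ Y := by
  intro z hz
  rw [← insert_endpoints_openSegment] at hz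
  rcases hz with rfl | rfl | hz
  · exact hY.frontier_subset (hfr _ (openSegment_subset_segment ℝ _ _ (hN n).2.1))
  · exact hY.frontier_subset (hfr _ (openSegment_subset_segment ℝ _ _ (hN (n + 1)).2.1))
  · exact interior_subset ((hN (n + 1)).2.2.1 hz)

/-- The final computation. -/
theorem final_ineq {ε D ℓ T1 T2 Ts Tt S1 S2 κ l12 lst : ℝ} (hε : 0 < ε) (hD : 0 < D) (hℓ : 0 < ℓ)
    (h1 : ℓ ≤ T1) (h2 : ℓ ≤ T2) (hs : ℓ ≤ Ts) (ht : ℓ ≤ Tt) (hs1 : Ts ≤ T1 + D)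
    (ht2 : Tt ≤ T2 + D) (e1 : T1 * T2 * |S1| = |l12| * |κ|) (e2 : Ts * Tt * |S2| = |lst| * |κ|)
    (hl : |l12| ≤ 1) (hlst : ε / (2 * D) ≤ |lst|) :
    ε / (2 * D * (1 + D / ℓ) ^ 2) * |S1| ≤ |S2| := by
  have hT1 : 0 < T1 := hℓ.trans_le h1
  have hT2 : 0 < T2 := hℓ.trans_le h2
  have hTs : 0 < Ts := hℓ.trans_le hs
  have hTt : 0 < Tt := hℓ.trans_le ht
  set K := 1 + D / ℓ with hK
  have hK0 : 0 < K := by positivity
  have k1 : Ts ≤ T1 * K := by
    have : D ≤ T1 * (D / ℓ) := by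
      calc D = ℓ * (D / ℓ) := by field_simp
        _ ≤ T1 * (D / ℓ) := by gcongr
    rw [hK]; linarith
  have k2 : Tt ≤ T2 * K := by
    have : D ≤ T2 * (D / ℓ) := by
      calc D = ℓ * (D / ℓ) := by field_simp
        _ ≤ T2 * (D / ℓ) := by gcongr
    rw [hK]; linarith
  have hS1 := abs_nonneg S1
  have hS2 := abs_nonneg S2
  have hκ := abs_nonneg κ
  have m1 : T1 * T2 * |S1| ≤ |κ| := by
    rw [e1]; exact mul_le_of_le_one_left hκ hl
  have m2 : ε / (2 * D) * (T1 * T2 * |S1|) ≤ Ts * Tt * |S2| := by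
    rw [e2]
    exact mul_le_mul hlst m1 (by positivity) (abs_nonneg _)
  have m3 : Ts * Tt * |S2| ≤ (T1 * K) * (T2 * K) * |S2| := by gcongr
  have m4 : ε / (2 * D) * (T1 * T2 * |S1|) ≤ (T1 * K) * (T2 * K) * |S2| := m2.trans m3
  have m5 : ε / (2 * D) * |S1| ≤ K ^ 2 * |S2| := by
    have hpos : 0 < T1 * T2 := by positivity
    refine le_of_mul_le_mul_left ?_ hpos
    calc T1 * T2 * (ε / (2 * D) * |S1|) = ε / (2 * D) * (T1 * T2 * |S1|) := by ring
      _ ≤ (T1 * K) * (T2 * K) * |S2| := m4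
      _ = T1 * T2 * (K ^ 2 * |S2|) := by ring
  rw [show ε / (2 * D * K ^ 2) * |S1| = (ε / (2 * D) * |S1|) / K ^ 2 by field_simp]
  rw [div_le_iff₀ (by positivity)]
  linarith

theorem null_letter [Finite ι] (hY : IsClosed Y) (hab : ∀ i, a i ≠ b i)
    (hfr : ∀ i, segment ℝ (a i) (b i) ⊆ frontier Y)
    (hdisj : ∀ i j, i ≠ j → Disjoint (segment ℝ (a i) (b i)) (segment ℝ (a j) (b j)))
    (hvis : Unobstructed Y a b) (y : ℂ) (j : ι) :
    volume {θ : ℝ | ∃ (q v : ℕ → ℂ) (c : ℕ → ι), q 0 = y ∧ v 0 = exp (θ * I) ∧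
      NeutralPath Y a b q v c ∧ c 0 = j} = 0 := by
  classical
  set S : Set ℝ := {θ : ℝ | ∃ (q v : ℕ → ℂ) (c : ℕ → ι), q 0 = y ∧ v 0 = exp (θ * I) ∧
      NeutralPath Y a b q v c ∧ c 0 = j} with hSdef
  by_cases hyj : y ∈ segment ℝ (a j) (b j)
  · have : S = ∅ := by
      rw [eq_empty_iff_forall_notMem]
      rintro θ ⟨q, v, c, hq, -, hN, hc⟩
      apply not_mem_side hfr hN 0
      rw [hq, hc]; exact hyj
    rw [this]; simp
  have : Nonempty ι := ⟨j⟩
  -- constants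
  obtain ⟨ε, hε, hsep⟩ := sep hY hdisj hvis
  obtain ⟨ℓ0, hℓ0, hfar⟩ := far hdisj
  obtain ⟨ℓ, hℓ, hℓy⟩ : ∃ ℓ > 0, ∀ p ∈ segment ℝ (a j) (b j), ℓ ≤ ‖p - y‖ := by
    obtain ⟨x, hx, hmin⟩ := (isCompact_seg (a j) (b j)).exists_isMinOn (f := fun p => ‖p - y‖)
      ⟨a j, left_mem_segment ℝ _ _⟩ (by fun_prop)
    refine ⟨‖x - y‖, ?_, fun p hp => hmin hp⟩
    rw [gt_iff_lt, norm_pos_iff]
    intro h0
    rw [sub_eq_zero] at h0
    exact hyj (h0 ▸ hx)
  obtain ⟨D, hD, hDb⟩ : ∃ D > 0, ∀ i, ‖b i - a i‖ ≤ D := by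
    obtain ⟨D, hD⟩ := (Set.finite_range fun i => ‖b i - a i‖).bddAbove
    exact ⟨max D 1, by positivity, fun i => (hD ⟨i, rfl⟩).trans (le_max_left _ _)⟩
  have hseg : ∀ i, ∀ p ∈ segment ℝ (a i) (b i), ∀ p' ∈ segment ℝ (a i) (b i), ‖p' - p‖ ≤ D := by
    intro i p hp p' hp'
    obtain ⟨s, s0, s1, rfl⟩ := mem_seg.1 hp
    obtain ⟨t, t0, t1, rfl⟩ := mem_seg.1 hp'
    rw [show a i + t * (b i - a i) - (a i + s * (b i - a i)) = ((t - s : ℝ) : ℂ) * (b i - a i) by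
      push_cast; ring, norm_mul, Complex.norm_real, Real.norm_eq_abs]
    have : |t - s| ≤ 1 := by rw [abs_le]; constructor <;> linarith
    calc |t - s| * ‖b i - a i‖ ≤ 1 * ‖b i - a i‖ := by gcongr
      _ ≤ D := by rw [one_mul]; exact hDb i
  -- choose the paths
  have hS : ∀ θ, θ ∈ S → ∃ (q v : ℕ → ℂ) (c : ℕ → ι), q 0 = y ∧ v 0 = exp (θ * I) ∧
      NeutralPath Y a b q v c ∧ c 0 = j := fun θ h => h
  choose! q v c hq hv hN hc using hS
  have hTex : ∀ θ, θ ∈ S → ∃ T : ℕ → ℝ, T 0 = 0 ∧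
      (∀ n, T (n + 1) - T n = ‖q θ (n + 1) - q θ n‖) ∧ (∀ n, T n < T (n + 1)) ∧
      (∀ n, Unf a b (c θ) n (q θ n) = q θ 0 + T n * v θ 0) ∧
      (∀ n, Lin a b (c θ) n (v θ n) = v θ 0) ∧
      (∀ n, ‖v θ n‖ = 1) ∧ (∀ n, q θ (n + 1) - q θ n = ‖q θ (n + 1) - q θ n‖ * v θ n) := by
    intro θ hθ
    exact unfold hab (hN θ hθ) (by rw [hv θ hθ, Complex.norm_exp_ofReal_mul_I])
  choose! T hT0 hTd hTlt hU hL hv1 hdir using hTex
  have hU' : ∀ θ ∈ S, ∀ n, Unf a b (c θ) n (q θ n) = y + T θ n * exp (θ * I) := by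
    intro θ hθ n
    rw [hU θ hθ, hq θ hθ, hv θ hθ]
  have hside : ∀ θ ∈ S, ∀ n, q θ (n + 1) ∈ segment ℝ (a (c θ n)) (b (c θ n)) := fun θ hθ n =>
    openSegment_subset_segment ℝ _ _ (hN θ hθ n).2.1
  have hTl : ∀ θ ∈ S, ∀ n, ℓ ≤ T θ (n + 1) := by
    intro θ hθ n
    induction n with
    | zero =>
      have := hTd θ hθ 0
      rw [hT0 θ hθ, sub_zero, hq θ hθ] at this
      rw [this]
      apply hℓy
      have h := hside θ hθ 0
      rwa [hc θ hθ] at h
    | succ n ih => exact ih.trans (hTlt θ hθ (n + 1)).le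
  have hTinf : ∀ θ ∈ S, ∀ n : ℕ, n * ℓ0 ≤ T θ (n + 1) := by
    intro θ hθ n
    induction n with
    | zero => simpa using hℓ.le.trans (hTl θ hθ 0)
    | succ n ih =>
      have h1 := hTd θ hθ (n + 1)
      have h2 := hfar _ _ (letter_ne hfr (hN θ hθ) n) _ (hside θ hθ n) _ (hside θ hθ (n + 1))
      push_cast
      linarith
  -- two trajectories with the same code until the time `n`
  have hQ : ∀ s ∈ S, ∀ t ∈ S, ∀ n, (∀ k < n + 1, c s k = c t k) →
      ‖(T t (n + 1) : ℂ) * exp (t * I) - T s (n + 1) * exp (s * I)‖ =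
        ‖q t (n + 1) - q s (n + 1)‖ ∧ ‖q t (n + 1) - q s (n + 1)‖ ≤ D := by
    intro s hs t ht n hst
    constructor
    · have e1 := hU' s hs (n + 1)
      have e2 := hU' t ht (n + 1)
      rw [← Unf_congr (n + 1) hst] at e2
      have e3 := dist_Unf hab (c := c s) (n + 1) (q t (n + 1)) (q s (n + 1))
      rw [e1, e2] at e3
      rw [← e3]
      congr 1
      ring
    · apply hseg (c s n) _ (hside s hs n)
      rw [hst n (Nat.lt_succ_self n)]
      exact hside t ht n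
  -- different directions have different codes
  have hcode : ∀ s ∈ S, ∀ t ∈ S, s < t → t - s < 1 → ∃ n, c s n ≠ c t n := by
    intro s hs t ht hst hst1
    by_contra hcon
    push Not at hcon
    have hsin : 0 < Real.sin (t - s) :=
      Real.sin_pos_of_pos_of_lt_pi (by linarith) (by linarith [Real.pi_gt_three])
    obtain ⟨n, hn⟩ := exists_nat_gt (D / Real.sin (t - s) / ℓ0)
    have hTs : 0 < T s (n + 1) := hℓ.trans_le (hTl s hs n)
    have hTt : 0 < T t (n + 1) := hℓ.trans_le (hTl t ht n)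
    have h1 := abs_cr_le ((T s (n + 1) : ℂ) * exp (s * I)) ((T t (n + 1) : ℂ) * exp (t * I))
    obtain ⟨h2, h3⟩ := hQ s hs t ht n fun k _ => hcon k
    rw [h2, cr_exp, norm_mul, Complex.norm_real, Complex.norm_exp_ofReal_mul_I, mul_one,
      Real.norm_of_nonneg hTs.le, abs_of_pos (by positivity)] at h1
    have h4 : T t (n + 1) * Real.sin (t - s) ≤ D := by
      refine le_of_mul_le_mul_left ?_ hTs
      calc T s (n + 1) * (T t (n + 1) * Real.sin (t - s))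
          = T s (n + 1) * T t (n + 1) * Real.sin (t - s) := by ring
        _ ≤ T s (n + 1) * ‖q t (n + 1) - q s (n + 1)‖ := h1
        _ ≤ T s (n + 1) * D := by gcongr
    have h5 := hTinf t ht n
    rw [div_lt_iff₀ hℓ0, div_lt_iff₀ hsin] at hn
    have h6 : (n : ℝ) * ℓ0 * Real.sin (t - s) ≤ D := le_trans (by gcongr) h4
    linarith
  -- the holes
  refine volume_eq_zero_of_holes S (ε / (2 * D * (1 + D / ℓ) ^ 2) * (2 / Real.pi)) (min (ε / 2) 1)
    (by positivity) (by positivity) ?_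
  intro x hx z hz hxz hxzδ
  have hxz1 : z - x < 1 := hxzδ.trans_le (min_le_right _ _)
  have hxzε : z - x < ε / 2 := hxzδ.trans_le (min_le_left _ _)
  have hP : ∃ n, ∃ s ∈ S ∩ Icc x z, ∃ t ∈ S ∩ Icc x z, c s n ≠ c t n := by
    obtain ⟨n, hn⟩ := hcode x hx z hz hxz hxz1
    exact ⟨n, x, ⟨hx, le_refl x, hxz.le⟩, z, ⟨hz, hxz.le, le_refl z⟩, hn⟩
  obtain ⟨hn, hmin⟩ : (∃ s ∈ S ∩ Icc x z, ∃ t ∈ S ∩ Icc x z, c s (Nat.find hP) ≠
      c t (Nat.find hP)) ∧ ∀ k < Nat.find hP, ∀ s ∈ S ∩ Icc x z, ∀ t ∈ S ∩ Icc x z,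
        c s k = c t k := by
    refine ⟨Nat.find_spec hP, ?_⟩
    intro k hk s hs t ht
    by_contra hne
    exact Nat.find_min hP hk ⟨s, hs, t, ht, hne⟩
  set N := Nat.find hP with hNdef
  obtain ⟨m, hm⟩ : ∃ m, N = m + 1 := by
    refine Nat.exists_eq_succ_of_ne_zero ?_
    intro h0
    obtain ⟨s, hs, t, ht, hne⟩ := hn
    rw [h0, hc s hs.1, hc t ht.1] at hne
    exact hne rfl
  have hxR : x ∈ S ∩ Icc x z := ⟨hx, le_refl x, hxz.le⟩
  have hzR : z ∈ S ∩ Icc x z := ⟨hz, hxz.le, le_refl z⟩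
  obtain ⟨w, hw, hwne⟩ : ∃ w ∈ S ∩ Icc x z, c w N ≠ c x N := by
    by_contra hcon
    push Not at hcon
    obtain ⟨s, hs, t, ht, hne⟩ := hn
    exact hne ((hcon s hs).trans (hcon t ht).symm)
  rw [hm] at hmin hwne
  -- coordinates on the common side
  have hlam : ∀ s, s ∈ S ∩ Icc x z → ∃ l : ℝ, 0 ≤ l ∧ l ≤ 1 ∧
      q s (m + 1) = a (c x m) + l * (b (c x m) - a (c x m)) := by
    intro s hs
    have h := hside s hs.1 m
    rw [hmin m (Nat.lt_succ_self m) s hs x hxR] at h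
    exact mem_seg.1 h
  choose! l hl0 hl1 hlq using hlam
  set P : ℂ := Unf a b (c x) (m + 1) (a (c x m)) - y with hP'
  set W : ℂ := Lin a b (c x) (m + 1) (b (c x m) - a (c x m)) with hW
  have hline : ∀ s ∈ S ∩ Icc x z, (T s (m + 1) : ℂ) * exp (s * I) = P + l s * W := by
    intro s hs
    have e1 := hU' s hs.1 (m + 1)
    rw [Unf_congr (m + 1) (fun k hk => hmin k hk s hs x hxR), hlq s hs, Unf_add, Lin_real_mul] at e1
    rw [hP', hW]
    linear_combination -e1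
  have hcross : ∀ s ∈ S ∩ Icc x z, ∀ t ∈ S ∩ Icc x z,
      T s (m + 1) * T t (m + 1) * |Real.sin (t - s)| = |l t - l s| * |cr P W| := by
    intro s hs t ht
    have h1 := cr_exp (T s (m + 1)) (T t (m + 1)) s t
    rw [hline s hs, hline t ht, cr_line] at h1
    have hTs : 0 < T s (m + 1) := hℓ.trans_le (hTl s hs.1 m)
    have hTt : 0 < T t (m + 1) := hℓ.trans_le (hTl t ht.1 m)
    rw [← abs_mul, h1, abs_mul, abs_of_pos (mul_pos hTs hTt)]
  have hTdiff : ∀ s ∈ S ∩ Icc x z, ∀ t ∈ S ∩ Icc x z, T s (m + 1) ≤ T t (m + 1) + D := by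
    intro s hs t ht
    obtain ⟨h2, h3⟩ := hQ t ht.1 s hs.1 m (fun k hk => hmin k hk t ht s hs)
    have hTs : 0 < T s (m + 1) := hℓ.trans_le (hTl s hs.1 m)
    have hTt : 0 < T t (m + 1) := hℓ.trans_le (hTl t ht.1 m)
    have h4 : ‖(T s (m + 1) : ℂ) * exp (s * I)‖ = T s (m + 1) := by
      rw [norm_mul, Complex.norm_real, Complex.norm_exp_ofReal_mul_I, mul_one,
        Real.norm_of_nonneg hTs.le]
    have h5 : ‖(T t (m + 1) : ℂ) * exp (t * I)‖ = T t (m + 1) := by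
      rw [norm_mul, Complex.norm_real, Complex.norm_exp_ofReal_mul_I, mul_one,
        Real.norm_of_nonneg hTt.le]
    have h6 := norm_sub_norm_le ((T s (m + 1) : ℂ) * exp (s * I)) ((T t (m + 1) : ℂ) * exp (t * I))
    rw [h4, h5] at h6
    linarith
  -- different letters are separated on the common side
  have hsepl : ∀ s ∈ S ∩ Icc x z, ∀ t ∈ S ∩ Icc x z, c s (m + 1) ≠ c t (m + 1) →
      ε / (2 * D) ≤ |l t - l s| := by
    intro s hs t ht hne
    have ems : c s m = c x m := hmin m (Nat.lt_succ_self m) s hs x hxR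
    have emt : c t m = c x m := hmin m (Nat.lt_succ_self m) t ht x hxR
    have hs1 := hside s hs.1 m
    have ht1 := hside t ht.1 m
    rw [ems] at hs1
    rw [emt] at ht1
    have h1 := hsep (c x m) (c s (m + 1)) (c t (m + 1))
      (by rw [← ems]; exact letter_ne hfr (hN s hs.1) m)
      (by rw [← emt]; exact letter_ne hfr (hN t ht.1) m) hne
      (q s (m + 1)) hs1 (q s (m + 1 + 1)) (hside s hs.1 (m + 1)) (q t (m + 1)) ht1
      (q t (m + 1 + 1)) (hside t ht.1 (m + 1)) (flight_subset hY hfr (hN s hs.1) m)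
      (flight_subset hY hfr (hN t ht.1) m)
    have hdirv : ∀ s ∈ S, (q s (m + 1 + 1) - q s (m + 1)) / (‖q s (m + 1 + 1) - q s (m + 1)‖ : ℂ) =
        v s (m + 1) := by
      intro s hs
      have h2 := hdir s hs (m + 1)
      have h3 := hTlt s hs (m + 1)
      have h4 := hTd s hs (m + 1)
      have h5 : (‖q s (m + 1 + 1) - q s (m + 1)‖ : ℂ) ≠ 0 := by
        have : 0 < ‖q s (m + 1 + 1) - q s (m + 1)‖ := by linarith
        exact_mod_cast this.ne'
      rw [div_eq_iff h5, mul_comm]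
      exact h2
    rw [hdirv s hs.1, hdirv t ht.1] at h1
    have h6 : ‖v s (m + 1) - v t (m + 1)‖ ≤ ε / 2 := by
      rw [← norm_Lin hab (c := c x) (m + 1), Lin_sub,
        ← Lin_congr (c := c s) (m + 1) (fun k hk => hmin k hk s hs x hxR) (v s (m + 1)),
        ← Lin_congr (c := c t) (m + 1) (fun k hk => hmin k hk t ht x hxR) (v t (m + 1)),
        hL s hs.1, hL t ht.1, hv s hs.1, hv t ht.1]
      refine (norm_exp_sub_exp s t).trans ?_
      rw [abs_le]
      constructor <;> linarith [hs.2.1, hs.2.2, ht.2.1, ht.2.2]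
    have h7 : ε / 2 ≤ ‖q s (m + 1) - q t (m + 1)‖ := by linarith
    rw [hlq s hs, hlq t ht, show a (c x m) + l s * (b (c x m) - a (c x m)) -
      (a (c x m) + l t * (b (c x m) - a (c x m))) = ((l s - l t : ℝ) : ℂ) *
        (b (c x m) - a (c x m)) by push_cast; ring, norm_mul, Complex.norm_real,
      Real.norm_eq_abs, abs_sub_comm] at h7
    have h8 : |l t - l s| * ‖b (c x m) - a (c x m)‖ ≤ |l t - l s| * D := by
      gcongr; exact hDb _
    rw [div_le_iff₀ (by positivity)]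
    linarith
  obtain ⟨α, β, hα, hβ, hlen, hhole⟩ := hole_of_letters S (fun θ => c θ (m + 1)) x w hx hw.1
    hw.2.1 hwne (ε / (2 * D * (1 + D / ℓ) ^ 2) * (2 / Real.pi) * (z - x)) (by
      intro s hs t ht hne
      have hs' : s ∈ S ∩ Icc x z := ⟨hs.1, hs.2.1, hs.2.2.trans hw.2.2⟩
      have ht' : t ∈ S ∩ Icc x z := ⟨ht.1, ht.2.1, ht.2.2.trans hw.2.2⟩
      have hlb : |l z - l x| ≤ 1 := by
        rw [abs_le]
        constructor <;> linarith [hl0 z hzR, hl1 z hzR, hl0 x hxR, hl1 x hxR]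
      have key := final_ineq hε hD hℓ (hTl x hx m) (hTl z hz m) (hTl s hs.1 m) (hTl t ht.1 m)
        (hTdiff s hs' x hxR) (hTdiff t ht' z hzR) (hcross x hxR z hzR) (hcross s hs' t ht')
        hlb (hsepl s hs' t ht' hne)
      have hsin1 : 2 / Real.pi * (z - x) ≤ |Real.sin (z - x)| :=
        (Real.mul_le_sin (by linarith) (by linarith [Real.pi_gt_three])).trans (le_abs_self _)
      have hsin2 : |Real.sin (t - s)| ≤ |t - s| := Real.abs_sin_le_abs
      calc ε / (2 * D * (1 + D / ℓ) ^ 2) * (2 / Real.pi) * (z - x)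
          = ε / (2 * D * (1 + D / ℓ) ^ 2) * (2 / Real.pi * (z - x)) := by ring
        _ ≤ ε / (2 * D * (1 + D / ℓ) ^ 2) * |Real.sin (z - x)| := by gcongr
        _ ≤ |Real.sin (t - s)| := key
        _ ≤ |t - s| := hsin2)
  exact ⟨α, β, hα, hβ.trans hw.2.2, hlen, hhole⟩

theorem ae_not_trapped [Finite ι] (hY : IsClosed Y) (hab : ∀ i, a i ≠ b i)
    (hfr : ∀ i, segment ℝ (a i) (b i) ⊆ frontier Y)
    (hdisj : ∀ i j, i ≠ j → Disjoint (segment ℝ (a i) (b i)) (segment ℝ (a j) (b j)))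
    (hvis : Unobstructed Y a b) (y : ℂ) :
    ∀ᵐ θ : ℝ, ¬ Trapped Y a b y (exp (θ * I)) := by
  rw [ae_iff]
  have : {θ : ℝ | ¬ ¬ Trapped Y a b y (exp (θ * I))} =
      ⋃ j : ι, {θ : ℝ | ∃ (q v : ℕ → ℂ) (c : ℕ → ι), q 0 = y ∧ v 0 = exp (θ * I) ∧
      NeutralPath Y a b q v c ∧ c 0 = j} := by
    ext θ
    simp only [not_not, mem_iUnion]
    constructor
    · rintro ⟨q, v, c, h1, h2, h3⟩
      exact ⟨c 0, q, v, c, h1, h2, h3, rfl⟩
    · rintro ⟨j, q, v, c, h1, h2, h3, -⟩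
      exact ⟨q, v, c, h1, h2, h3⟩
  rw [this]
  have : Countable ι := Finite.to_countable
  exact measure_iUnion_null fun j => null_letter hY hab hfr hdisj hvis y j

end Pool.Agent.H.MP_2e716c_an
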