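import Mathlib
import Pool.Agent.H.MP_2e716c_an.h4.Main

/-!
# Semi-dispersive billiards: almost every orbit leaves the neutral sides

`Y` is a closed subset of the plane and `[a i, b i]` are finitely many pairwise disjoint segments in
the boundary of `Y` (the neutral sides) such that no flight inside `Y` between two neutral sides
meets a third one.  Then, for every point `y` and almost every direction, no billiard trajectory
which starts at `y` in this direction reflects for ever at neutral sides only.

The hypothesis `Unobstructed` is automatic when the neutral sides are exposed faces of a set which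
contains `Y`, for instance sides of a convex polygon, no two of them adjacent: see
`unobstructed_of_exposed` below.

Method: group the trapped directions by the sequence of neutral sides which they meet.  At the first
moment where this sequence is not the same for all trapped directions of an interval, compactness
and unfolding produce a hole in the set of trapped directions, whose length is a fixed proportion
of the distance of any two trapped directions of the interval; so the trapped set is porous and
Lebesgue null.
-/

open MeasureTheory Complex

namespace Pool.Agent.Results.MP_2e716c_an.NonAdjacentNeutral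

open Pool.Agent.H.MP_2e716c_an

/-- The hypothesis `Unobstructed` holds if the neutral sides are pairwise disjoint exposed faces of
a set that contains the table, e.g. pairwise non-adjacent sides of a convex polygon. -/
theorem unobstructed_of_exposed {ι : Type*} (Y P : Set ℂ) (a b : ι → ℂ) (hYP : Y ⊆ P)
    (hexp : ∀ i, IsExposed ℝ P (segment ℝ (a i) (b i)))
    (hdisj : ∀ i j, i ≠ j → Disjoint (segment ℝ (a i) (b i)) (segment ℝ (a j) (b j))) :
    Unobstructed Y a b := by
  intro i j k hij hik hjk p hp q hq hpq
  rw [Set.disjoint_left]
  intro z hz hzk
  rw [← insert_endpoints_openSegment] at hz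
  rcases hz with rfl | rfl | hz
  · exact Set.disjoint_left.1 (hdisj i k hik) hp hzk
  · exact Set.disjoint_left.1 (hdisj j k hjk) hq hzk
  · have h := (hexp k).isExtreme.2 (hYP (hpq (left_mem_segment ℝ p q)))
      (hYP (hpq (right_mem_segment ℝ p q))) hzk hz
    exact Set.disjoint_left.1 (hdisj i k hik) hp h

theorem result {ι : Type*} [Finite ι] (Y : Set ℂ) (hY : IsClosed Y) (a b : ι → ℂ)
    (hab : ∀ i, a i ≠ b i) (hfr : ∀ i, segment ℝ (a i) (b i) ⊆ frontier Y)
    (hdisj : ∀ i j, i ≠ j → Disjoint (segment ℝ (a i) (b i)) (segment ℝ (a j) (b j)))
    (hvis : Unobstructed Y a b) (y : ℂ) :
    ∀ᵐ θ : ℝ, ¬ Trapped Y a b y (exp (θ * I)) :=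
  ae_not_trapped hY hab hfr hdisj hvis y

end Pool.Agent.Results.MP_2e716c_an.NonAdjacentNeutral
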